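import Mathlib

/-! The potential argument behind the upper bound for column-pivoted QR. -/

set_option autoImplicit false

open Finset

namespace Pool.Agent.Y830.QR

/-- Abel summation: a sequence with nonnegative tail sums, against nonnegative nondecreasing weights. -/
lemma abel (q x : ℕ → ℝ) (j : ℕ) (hq0 : ∀ i, i < j → 0 ≤ q i)
    (hq : ∀ i, i + 1 < j → q i ≤ q (i + 1))
    (hx : ∀ i, i ≤ j → 0 ≤ ∑ l ∈ Finset.Ico i j, x l) :
    0 ≤ ∑ l ∈ Finset.range j, q l * x l := by
  have key : ∀ m i, i + m + 1 = j →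
      q i * ∑ l ∈ Finset.Ico i j, x l ≤ ∑ l ∈ Finset.Ico i j, q l * x l := by
    intro m
    induction m with
    | zero =>
      intro i hi
      have : j = i + 1 := by omega
      rw [this, Nat.Ico_succ_singleton]
      simp
    | succ m ih =>
      intro i hi
      have h1 := ih (i + 1) (by omega)
      rw [Finset.sum_eq_sum_Ico_succ_bot (by omega : i < j),
        Finset.sum_eq_sum_Ico_succ_bot (by omega : i < j)]
      have h2 := hx (i + 1) (by omega)
      have h3 := hq i (by omega)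
      nlinarith [mul_le_mul_of_nonneg_right h3 h2]
  rcases Nat.eq_zero_or_pos j with h | h
  · rw [h]; simp
  · have h1 := key (j - 1) 0 (by omega)
    rw [← Finset.range_eq_Ico] at h1
    have h2 := hx 0 (by omega)
    rw [← Finset.range_eq_Ico] at h2
    exact (mul_nonneg (hq0 0 h) h2).trans h1

/-- The potential. -/
noncomputable def EE (η : ℝ) (d : ℕ → ℝ) (j : ℕ) : ℝ :=
  ∏ i ∈ Finset.range j, (1 + ((1 - d (i + 1) ^ 2 / d i ^ 2) / η + η) / 2)

variable {k : ℕ} {d : ℕ → ℝ} {η : ℝ}

lemma delta_nonneg (hd : ∀ i, i < k → 0 < d i) (hanti : ∀ i, i + 1 < k → d (i + 1) ≤ d i)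
    {i : ℕ} (hi : i + 1 < k) : 0 ≤ 1 - d (i + 1) ^ 2 / d i ^ 2 := by
  have h0 := hd i (by omega)
  have h1 := hd (i + 1) hi
  rw [sub_nonneg, div_le_one (by positivity)]
  exact pow_le_pow_left₀ h1.le (hanti i hi) 2

lemma EE_succ (j : ℕ) : EE η d (j + 1) =
    EE η d j * (1 + ((1 - d (j + 1) ^ 2 / d j ^ 2) / η + η) / 2) := by
  unfold EE
  rw [Finset.prod_range_succ]

lemma EE_pos (hη : 0 < η) (hd : ∀ i, i < k → 0 < d i)
    (hanti : ∀ i, i + 1 < k → d (i + 1) ≤ d i) : ∀ j, j < k → 0 < EE η d j := by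
  intro j
  induction j with
  | zero => intro _; simp [EE]
  | succ j ih =>
    intro hj
    rw [EE_succ]
    have h1 := delta_nonneg hd hanti hj
    have h2 := ih (by omega)
    positivity

lemma EE_mono (hη : 0 < η) (hd : ∀ i, i < k → 0 < d i)
    (hanti : ∀ i, i + 1 < k → d (i + 1) ≤ d i) {j : ℕ} (hj : j + 1 < k) :
    EE η d j ≤ EE η d (j + 1) := by
  rw [EE_succ]
  have h1 := delta_nonneg hd hanti hj
  have h2 := EE_pos hη hd hanti j (by omega)
  have h3 : 0 ≤ ((1 - d (j + 1) ^ 2 / d j ^ 2) / η + η) / 2 := by positivity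
  nlinarith

/-- The recursion closes. -/
lemma EE_bound (hη : 0 < η) (hd : ∀ i, i < k → 0 < d i)
    (hanti : ∀ i, i + 1 < k → d (i + 1) ≤ d i) (U : ℕ → ℕ → ℝ) (z : ℕ → ℝ)
    (h1 : ∀ j, j < k → ∀ i, i ≤ j →
      ∑ l ∈ Finset.Ico i j, d l ^ 2 * U l j ^ 2 ≤ d i ^ 2 - d j ^ 2)
    (h2 : ∀ j, j < k → |z j| ≤ 1 + ∑ l ∈ Finset.range j, |U l j| * |z l|) :
    ∀ j, j < k → |z j| ≤ EE η d j := by
  intro j
  induction j using Nat.strong_induction_on with
  | _ j ih =>
    intro hj
    have e1 : ∑ l ∈ Finset.range j, |U l j| * |z l| ≤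
        ∑ l ∈ Finset.range j, (U l j ^ 2 / η + η) / 2 * EE η d l := by
      refine Finset.sum_le_sum fun l hl => ?_
      have hl' := Finset.mem_range.1 hl
      have a1 := ih l hl' (by omega)
      have a2 := EE_pos hη hd hanti l (by omega)
      have a3 : |U l j| ≤ (U l j ^ 2 / η + η) / 2 := by
        rw [le_div_iff₀ (by norm_num : (0:ℝ) < 2)]
        have : U l j ^ 2 / η + η - |U l j| * 2 = (|U l j| - η) ^ 2 / η := by
          field_simp
          rw [← sq_abs (U l j)]
          ring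
        have h5 : 0 ≤ (|U l j| - η) ^ 2 / η := by positivity
        linarith
      exact mul_le_mul a3 a1 (abs_nonneg _) ((abs_nonneg _).trans a3)
    have e2 : ∑ l ∈ Finset.range j, U l j ^ 2 * EE η d l ≤
        ∑ l ∈ Finset.range j, (1 - d (l + 1) ^ 2 / d l ^ 2) * EE η d l := by
      have hab := abel (fun l => EE η d l / d l ^ 2)
        (fun l => d l ^ 2 - d (l + 1) ^ 2 - d l ^ 2 * U l j ^ 2) j
        (fun i hi => by
          have := EE_pos hη hd hanti i (by omega)
          positivity)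
        (fun i hi => by
          have b1 := EE_pos hη hd hanti i (by omega)
          have b2 := EE_mono hη hd hanti (j := i) (by omega)
          have b3 := hd i (by omega)
          have b4 := hd (i + 1) (by omega)
          have b5 := hanti i (by omega)
          have b6 : d (i + 1) ^ 2 ≤ d i ^ 2 := pow_le_pow_left₀ b4.le b5 2
          show EE η d i / d i ^ 2 ≤ EE η d (i + 1) / d (i + 1) ^ 2
          exact div_le_div₀ (b1.le.trans b2) b2 (by positivity) b6)
        (fun i hi => by
          have c1 := h1 j hj i hi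
          rw [Finset.sum_sub_distrib]
          have c2 : ∑ l ∈ Finset.Ico i j, (d l ^ 2 - d (l + 1) ^ 2) = d i ^ 2 - d j ^ 2 := by
            have := Finset.sum_Ico_sub (fun l => - d l ^ 2) hi
            rw [← neg_sub_neg, ← this]
            refine Finset.sum_congr rfl fun l _ => ?_
            ring
          rw [c2]
          linarith)
      have hsum : ∑ l ∈ Finset.range j, EE η d l / d l ^ 2 *
          (d l ^ 2 - d (l + 1) ^ 2 - d l ^ 2 * U l j ^ 2) =
          ∑ l ∈ Finset.range j, (1 - d (l + 1) ^ 2 / d l ^ 2) * EE η d l -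
          ∑ l ∈ Finset.range j, U l j ^ 2 * EE η d l := by
        rw [← Finset.sum_sub_distrib]
        refine Finset.sum_congr rfl fun l hl => ?_
        have hl' := Finset.mem_range.1 hl
        have b3 := hd l (by omega)
        field_simp
      rw [hsum] at hab
      linarith
    have e3 : ∑ l ∈ Finset.range j, (U l j ^ 2 / η + η) / 2 * EE η d l =
        (∑ l ∈ Finset.range j, U l j ^ 2 * EE η d l) / (2 * η) +
          (∑ l ∈ Finset.range j, EE η d l) * (η / 2) := by
      rw [Finset.sum_div, Finset.sum_mul, ← Finset.sum_add_distrib]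
      refine Finset.sum_congr rfl fun l _ => ?_
      field_simp
    have e4 : (∑ l ∈ Finset.range j, (1 - d (l + 1) ^ 2 / d l ^ 2) * EE η d l) / (2 * η) +
          (∑ l ∈ Finset.range j, EE η d l) * (η / 2) = EE η d j - 1 := by
      have := Finset.sum_range_sub (fun l => EE η d l) j
      have h0 : EE η d 0 = 1 := by simp [EE]
      rw [h0] at this
      rw [← this, Finset.sum_div, Finset.sum_mul, ← Finset.sum_add_distrib]
      refine Finset.sum_congr rfl fun l _ => ?_
      rw [EE_succ]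
      field_simp
      ring
    have e5 : (∑ l ∈ Finset.range j, U l j ^ 2 * EE η d l) / (2 * η) ≤
        (∑ l ∈ Finset.range j, (1 - d (l + 1) ^ 2 / d l ^ 2) * EE η d l) / (2 * η) :=
      div_le_div_of_nonneg_right e2 (by positivity)
    have := h2 j hj
    linarith

lemma EE_le_exp (hη : 0 < η) (hd : ∀ i, i < k → 0 < d i)
    (hanti : ∀ i, i + 1 < k → d (i + 1) ≤ d i) : ∀ j, j < k →
    EE η d j ≤ Real.exp ((Real.log (d 0 ^ 2) - Real.log (d j ^ 2)) / (2 * η) + j * (η / 2)) := by
  intro j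
  induction j with
  | zero => intro _; simp [EE]
  | succ j ih =>
    intro hj
    rw [EE_succ]
    have h1 := ih (by omega)
    have a0 := hd j (by omega)
    have a1 := hd (j + 1) hj
    have h2 : 1 - d (j + 1) ^ 2 / d j ^ 2 ≤ Real.log (d j ^ 2) - Real.log (d (j + 1) ^ 2) := by
      have h3 := Real.log_le_sub_one_of_pos (x := d (j + 1) ^ 2 / d j ^ 2) (by positivity)
      rw [Real.log_div (by positivity) (by positivity)] at h3
      linarith
    have h4 : 1 + ((1 - d (j + 1) ^ 2 / d j ^ 2) / η + η) / 2 ≤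
        Real.exp ((Real.log (d j ^ 2) - Real.log (d (j + 1) ^ 2)) / (2 * η) + η / 2) := by
      have h5 := Real.add_one_le_exp ((Real.log (d j ^ 2) - Real.log (d (j + 1) ^ 2)) / (2 * η) + η / 2)
      have h6 : (1 - d (j + 1) ^ 2 / d j ^ 2) / (2 * η) ≤
          (Real.log (d j ^ 2) - Real.log (d (j + 1) ^ 2)) / (2 * η) :=
        div_le_div_of_nonneg_right h2 (by positivity)
      have h7 : ((1 - d (j + 1) ^ 2 / d j ^ 2) / η + η) / 2 =
          (1 - d (j + 1) ^ 2 / d j ^ 2) / (2 * η) + η / 2 := by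
        field_simp
      rw [h7]
      linarith
    have h8 := delta_nonneg hd hanti hj
    refine (mul_le_mul h1 h4 (by positivity) (Real.exp_pos _).le).trans (le_of_eq ?_)
    rw [← Real.exp_add]
    congr 1
    push_cast
    ring

/-- The potential bound. -/
theorem potential (hη : 0 < η) (hd : ∀ i, i < k → 0 < d i)
    (hanti : ∀ i, i + 1 < k → d (i + 1) ≤ d i) (U : ℕ → ℕ → ℝ) (z : ℕ → ℝ)
    (h1 : ∀ j, j < k → ∀ i, i ≤ j →
      ∑ l ∈ Finset.Ico i j, d l ^ 2 * U l j ^ 2 ≤ d i ^ 2 - d j ^ 2)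
    (h2 : ∀ j, j < k → |z j| ≤ 1 + ∑ l ∈ Finset.range j, |U l j| * |z l|)
    (j : ℕ) (hj : j < k) :
    |z j| ≤ Real.exp ((Real.log (d 0 ^ 2) - Real.log (d j ^ 2)) / (2 * η) + j * (η / 2)) :=
  (EE_bound hη hd hanti U z h1 h2 j hj).trans (EE_le_exp hη hd hanti j hj)

end Pool.Agent.Y830.QR
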