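import Mathlib
import Pool.Agent.Y830.QR.Pot

/-! Gram-Schmidt for a pivoted sequence of vectors, and the bound for the dual vectors. -/

set_option autoImplicit false

open Finset InnerProductSpace

open scoped RealInnerProductSpace

namespace Pool.Agent.Y830.QR

variable {k : ℕ} {E : Type*} [NormedAddCommGroup E] [InnerProductSpace ℝ E]

/-- The span of the vectors before `i`. -/
def SS (a : Fin k → E) (i : Fin k) : Submodule ℝ E := Submodule.span ℝ (a '' {l | l < i})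

lemma SS_eq (a : Fin k → E) (i : Fin k) :
    SS a i = Submodule.span ℝ (gramSchmidt ℝ a '' Set.Iio i) := by
  rw [span_gramSchmidt_Iio]
  rfl

/-- The coefficients. -/
noncomputable def UU (a : Fin k → E) (l j : Fin k) : ℝ :=
  ⟪gramSchmidt ℝ a l, a j⟫ / ‖gramSchmidt ℝ a l‖ ^ 2

lemma expand (a : Fin k → E) (j : Fin k) :
    a j = gramSchmidt ℝ a j + ∑ l ∈ Finset.Iio j, UU a l j • gramSchmidt ℝ a l := by
  have := gramSchmidt_def'' ℝ a j
  exact this

lemma sub_mem_SS (a : Fin k → E) (j : Fin k) : a j - gramSchmidt ℝ a j ∈ SS a j := by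
  rw [SS_eq]
  have h := expand a j
  have h2 : a j - gramSchmidt ℝ a j = ∑ l ∈ Finset.Iio j, UU a l j • gramSchmidt ℝ a l := by
    rw [sub_eq_iff_eq_add']
    exact h
  rw [h2]
  refine Submodule.sum_mem _ fun l hl => Submodule.smul_mem _ _ (Submodule.subset_span ?_)
  exact ⟨l, Finset.mem_Iio.1 hl, rfl⟩

lemma infDist_self_le (a : Fin k → E) (i : Fin k) :
    Metric.infDist (a i) (SS a i : Set E) ≤ ‖gramSchmidt ℝ a i‖ := by
  have h := Metric.infDist_le_dist_of_mem (x := a i) (s := (SS a i : Set E)) (sub_mem_SS a i)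
  rw [dist_eq_norm] at h
  simpa using h

lemma inner_SS (a : Fin k → E) {i l : Fin k} (hl : i ≤ l) {s : E} (hs : s ∈ SS a i) :
    ⟪gramSchmidt ℝ a l, s⟫ = 0 := by
  rw [SS_eq] at hs
  induction hs using Submodule.span_induction with
  | mem x hx =>
    obtain ⟨m, hm, rfl⟩ := hx
    have hm' : m < i := hm
    exact gramSchmidt_orthogonal ℝ a (by
      intro h; rw [h] at hl; exact absurd hm' (not_lt.2 hl))
  | zero => simp
  | add x y _ _ hx hy => rw [inner_add_right, hx, hy, add_zero]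
  | smul r x _ hx => rw [inner_smul_right, hx, mul_zero]

lemma inner_self_expand (a : Fin k → E) (j : Fin k) :
    ⟪gramSchmidt ℝ a j, a j⟫ = ‖gramSchmidt ℝ a j‖ ^ 2 := by
  have h1 := inner_SS a (le_refl j) (sub_mem_SS a j)
  rw [inner_sub_right, real_inner_self_eq_norm_sq] at h1
  linarith

/-- The normalised vectors. -/
noncomputable def ee (a : Fin k → E) (l : Fin k) : E :=
  (‖gramSchmidt ℝ a l‖)⁻¹ • gramSchmidt ℝ a l

lemma ee_orthonormal (a : Fin k → E) (hq : ∀ i, gramSchmidt ℝ a i ≠ 0) :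
    Orthonormal ℝ (ee a) := by
  constructor
  · intro i
    unfold ee
    rw [norm_smul, norm_inv, norm_norm]
    exact inv_mul_cancel₀ (norm_ne_zero_iff.2 (hq i))
  · intro i j hij
    unfold ee
    change ⟪_, _⟫ = 0
    rw [inner_smul_left, inner_smul_right, gramSchmidt_orthogonal ℝ a hij]
    simp

lemma bessel (a : Fin k → E) (hq : ∀ i, gramSchmidt ℝ a i ≠ 0) {i j : Fin k} (hij : i ≤ j) :
    ∑ l ∈ Finset.Ico i j, ‖gramSchmidt ℝ a l‖ ^ 2 * UU a l j ^ 2 + ‖gramSchmidt ℝ a j‖ ^ 2 ≤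
      Metric.infDist (a j) (SS a i : Set E) ^ 2 := by
  have key : ∀ s ∈ (SS a i : Set E),
      ∑ l ∈ Finset.Ico i j, ‖gramSchmidt ℝ a l‖ ^ 2 * UU a l j ^ 2 + ‖gramSchmidt ℝ a j‖ ^ 2 ≤
      dist (a j) s ^ 2 := by
    intro s hs
    have hb := (ee_orthonormal a hq).sum_inner_products_le (x := a j - s) (s := Finset.Icc i j)
    have h1 : ∀ l ∈ Finset.Icc i j, ‖⟪ee a l, a j - s⟫‖ ^ 2 =
        ‖gramSchmidt ℝ a l‖ ^ 2 * UU a l j ^ 2 := by
      intro l hl
      have hl' := (Finset.mem_Icc.1 hl).1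
      have hn := norm_ne_zero_iff.2 (hq l)
      unfold ee UU
      rw [inner_smul_left, inner_sub_right, inner_SS a hl' hs, sub_zero, Real.norm_eq_abs, sq_abs]
      simp only [conj_trivial]
      field_simp
    rw [Finset.sum_congr rfl h1, ← dist_eq_norm] at hb
    have h2 : ∑ l ∈ Finset.Icc i j, ‖gramSchmidt ℝ a l‖ ^ 2 * UU a l j ^ 2 =
        ∑ l ∈ Finset.Ico i j, ‖gramSchmidt ℝ a l‖ ^ 2 * UU a l j ^ 2 + ‖gramSchmidt ℝ a j‖ ^ 2 := by
      rw [← Finset.Ico_insert_right hij, Finset.sum_insert (by simp), add_comm]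
      congr 1
      unfold UU
      rw [inner_self_expand]
      have hn := norm_ne_zero_iff.2 (hq j)
      field_simp
    rw [h2] at hb
    exact hb
  set L := ∑ l ∈ Finset.Ico i j, ‖gramSchmidt ℝ a l‖ ^ 2 * UU a l j ^ 2 + ‖gramSchmidt ℝ a j‖ ^ 2
    with hL
  have hL0 : 0 ≤ L := by positivity
  have h3 : Real.sqrt L ≤ Metric.infDist (a j) (SS a i : Set E) := by
    rw [Metric.le_infDist ⟨0, (SS a i).zero_mem⟩]
    intro y hy
    exact Real.sqrt_le_iff.2 ⟨dist_nonneg, key y hy⟩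
  calc L = Real.sqrt L ^ 2 := (Real.sq_sqrt hL0).symm
    _ ≤ _ := pow_le_pow_left₀ (Real.sqrt_nonneg _) h3 2

/-- Sums over initial segments of `Fin k` as sums over naturals. -/
lemma sum_Ico_fin (F : ℕ → ℝ) (i j : Fin k) :
    ∑ l ∈ Finset.Ico i j, F (l : ℕ) = ∑ l ∈ Finset.Ico (i : ℕ) j, F l := by
  rw [← Fin.map_valEmbedding_Ico, Finset.sum_map]
  rfl

lemma sum_Iio_fin (F : ℕ → ℝ) (j : Fin k) :
    ∑ l ∈ Finset.Iio j, F (l : ℕ) = ∑ l ∈ Finset.range (j : ℕ), F l := by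
  rw [← Nat.Iio_eq_range, ← Fin.map_valEmbedding_Iio, Finset.sum_map]
  rfl

lemma ext_val (f : Fin k → ℝ) (l : Fin k) :
    (fun n : ℕ => if h : n < k then f ⟨n, h⟩ else 0) (l : ℕ) = f l := by
  simp

/-- Bound for the inner products of the Gram-Schmidt vectors with a dual vector. -/
theorem inner_bound (a : Fin k → E) (N : ℝ) (hN : 1 < N)
    (hpiv : ∀ i j : Fin k, i ≤ j →
      Metric.infDist (a j) (SS a i : Set E) ≤ Metric.infDist (a i) (SS a i : Set E))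
    (hlow : ∀ i, 1 ≤ N * Metric.infDist (a i) (SS a i : Set E) ^ 2) (hup : ∀ i, ‖a i‖ ≤ 1)
    (b : E) (hb : ∀ j, |⟪a j, b⟫| ≤ 1) (j : Fin k) :
    |⟪gramSchmidt ℝ a j, b⟫| ≤ Real.exp (Real.sqrt (k * Real.log N)) := by
  have hN0 : 0 < N := by linarith
  have hkpos : 0 < k := lt_of_le_of_lt (Nat.zero_le _) j.2
  have hkr : (0 : ℝ) < k := by exact_mod_cast hkpos
  have hself := infDist_self_le a
  have hlow2 : ∀ i, 1 ≤ N * ‖gramSchmidt ℝ a i‖ ^ 2 := by
    intro i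
    refine (hlow i).trans (mul_le_mul_of_nonneg_left ?_ hN0.le)
    exact pow_le_pow_left₀ Metric.infDist_nonneg (hself i) 2
  have hq : ∀ i, gramSchmidt ℝ a i ≠ 0 := by
    intro i h
    have := hlow2 i
    rw [h] at this
    simp at this
    linarith
  have hbes : ∀ i j : Fin k, i ≤ j →
      ∑ l ∈ Finset.Ico i j, ‖gramSchmidt ℝ a l‖ ^ 2 * UU a l j ^ 2 + ‖gramSchmidt ℝ a j‖ ^ 2 ≤
        ‖gramSchmidt ℝ a i‖ ^ 2 := by
    intro i j hij
    refine (bessel a hq hij).trans ?_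
    refine pow_le_pow_left₀ Metric.infDist_nonneg ((hpiv i j hij).trans (hself i)) 2
  set η : ℝ := Real.sqrt (Real.log N / k) with hη
  have hlog : 0 < Real.log N := Real.log_pos hN
  have hη0 : 0 < η := Real.sqrt_pos.2 (by positivity)
  set d : ℕ → ℝ := fun n => if h : n < k then ‖gramSchmidt ℝ a ⟨n, h⟩‖ else 0 with hd
  set z : ℕ → ℝ := fun n => if h : n < k then ⟪gramSchmidt ℝ a ⟨n, h⟩, b⟫ else 0 with hz
  set U : ℕ → ℕ → ℝ := fun l n => if h : l < k ∧ n < k then UU a ⟨l, h.1⟩ ⟨n, h.2⟩ else 0 with hU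
  have dv : ∀ l : Fin k, d (l : ℕ) = ‖gramSchmidt ℝ a l‖ := by intro l; simp [hd]
  have zv : ∀ l : Fin k, z (l : ℕ) = ⟪gramSchmidt ℝ a l, b⟫ := by intro l; simp [hz]
  have Uv : ∀ l n : Fin k, U (l : ℕ) (n : ℕ) = UU a l n := by intro l n; simp [hU]
  have H0 : ∀ i, i < k → 0 < d i := by
    intro i hi
    have := dv ⟨i, hi⟩
    rw [this]
    exact norm_pos_iff.2 (hq _)
  have H1 : ∀ i, i + 1 < k → d (i + 1) ≤ d i := by
    intro i hi
    have e1 := dv ⟨i, by omega⟩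
    have e2 := dv ⟨i + 1, hi⟩
    have h := hbes ⟨i, by omega⟩ ⟨i + 1, hi⟩ (by simp [Fin.le_def])
    have h2 : 0 ≤ ∑ l ∈ Finset.Ico (⟨i, by omega⟩ : Fin k) ⟨i + 1, hi⟩,
        ‖gramSchmidt ℝ a l‖ ^ 2 * UU a l ⟨i + 1, hi⟩ ^ 2 := by positivity
    show d (i + 1) ≤ d i
    simp only at e1 e2
    rw [e1, e2]
    refine le_of_sq_le_sq ?_ (norm_nonneg _)
    linarith
  have H2 : ∀ j, j < k → ∀ i, i ≤ j →
      ∑ l ∈ Finset.Ico i j, d l ^ 2 * U l j ^ 2 ≤ d i ^ 2 - d j ^ 2 := by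
    intro j hj i hij
    have h := hbes ⟨i, by omega⟩ ⟨j, hj⟩ hij
    have e1 := dv ⟨i, by omega⟩
    have e2 := dv ⟨j, hj⟩
    simp only at e1 e2
    rw [e1, e2]
    have e3 : ∑ l ∈ Finset.Ico i j, d l ^ 2 * U l j ^ 2 =
        ∑ l ∈ Finset.Ico (⟨i, by omega⟩ : Fin k) ⟨j, hj⟩,
          ‖gramSchmidt ℝ a l‖ ^ 2 * UU a l ⟨j, hj⟩ ^ 2 := by
      have := sum_Ico_fin (k := k) (fun l => d l ^ 2 * U l j ^ 2) ⟨i, by omega⟩ ⟨j, hj⟩
      simp only at this
      rw [← this]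
      refine Finset.sum_congr rfl fun l _ => ?_
      have := Uv l ⟨j, hj⟩
      simp only at this
      rw [dv, this]
    rw [e3]
    linarith
  have H3 : ∀ j, j < k → |z j| ≤ 1 + ∑ l ∈ Finset.range j, |U l j| * |z l| := by
    intro j hj
    have e1 := zv ⟨j, hj⟩
    simp only at e1
    have e3 : ∑ l ∈ Finset.range j, |U l j| * |z l| =
        ∑ l ∈ Finset.Iio (⟨j, hj⟩ : Fin k), |UU a l ⟨j, hj⟩| * |⟪gramSchmidt ℝ a l, b⟫| := by
      have := sum_Iio_fin (k := k) (fun l => |U l j| * |z l|) ⟨j, hj⟩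
      simp only at this
      rw [← this]
      refine Finset.sum_congr rfl fun l _ => ?_
      have := Uv l ⟨j, hj⟩
      simp only at this
      rw [zv, this]
    rw [e1, e3]
    have h4 := expand a ⟨j, hj⟩
    have h5 : ⟪gramSchmidt ℝ a ⟨j, hj⟩, b⟫ = ⟪a ⟨j, hj⟩, b⟫ -
        ∑ l ∈ Finset.Iio (⟨j, hj⟩ : Fin k), UU a l ⟨j, hj⟩ * ⟪gramSchmidt ℝ a l, b⟫ := by
      conv_rhs => rw [h4]
      rw [inner_add_left, sum_inner]
      have : ∑ l ∈ Finset.Iio (⟨j, hj⟩ : Fin k), ⟪UU a l ⟨j, hj⟩ • gramSchmidt ℝ a l, b⟫ =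
          ∑ l ∈ Finset.Iio (⟨j, hj⟩ : Fin k), UU a l ⟨j, hj⟩ * ⟪gramSchmidt ℝ a l, b⟫ := by
        refine Finset.sum_congr rfl fun l _ => ?_
        rw [inner_smul_left]
        simp
      rw [this]
      ring
    rw [h5]
    refine (abs_sub _ _).trans (add_le_add (hb _) ?_)
    refine (Finset.abs_sum_le_sum_abs _ _).trans (le_of_eq ?_)
    refine Finset.sum_congr rfl fun l _ => ?_
    rw [abs_mul]
  have main := potential hη0 H0 H1 U z H2 H3 j j.2
  rw [zv j] at main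
  refine main.trans (Real.exp_le_exp.2 ?_)
  -- the exponent
  have hd0 : d 0 ≤ 1 := by
    have e1 := dv ⟨0, hkpos⟩
    simp only at e1
    rw [e1]
    have h := bessel a hq (le_refl (⟨0, hkpos⟩ : Fin k))
    rw [Finset.Ico_self, Finset.sum_empty, zero_add] at h
    have h2 : Metric.infDist (a ⟨0, hkpos⟩) (SS a ⟨0, hkpos⟩ : Set E) ≤ 1 := by
      refine (Metric.infDist_le_dist_of_mem (SS a ⟨0, hkpos⟩).zero_mem).trans ?_
      rw [dist_zero_right]
      exact hup _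
    have h3 : ‖gramSchmidt ℝ a ⟨0, hkpos⟩‖ ^ 2 ≤ 1 ^ 2 :=
      h.trans (pow_le_pow_left₀ Metric.infDist_nonneg h2 2)
    exact le_of_sq_le_sq h3 (by norm_num)
  have hd00 := H0 0 hkpos
  have hL0 : Real.log (d 0 ^ 2) ≤ 0 :=
    Real.log_nonpos (by positivity) (pow_le_one₀ hd00.le hd0)
  have hLj : - Real.log N ≤ Real.log (d j ^ 2) := by
    rw [← Real.log_inv]
    refine Real.log_le_log (by positivity) ?_
    have := hlow2 j
    rw [dv, inv_le_iff_one_le_mul₀ hN0, mul_comm]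
    exact this
  have hsq : η ^ 2 = Real.log N / k := Real.sq_sqrt (by positivity)
  have hkη : (k : ℝ) * η = Real.sqrt (k * Real.log N) := by
    rw [hη, show (k : ℝ) * Real.log N = (k : ℝ) ^ 2 * (Real.log N / k) by field_simp,
      Real.sqrt_mul (by positivity), Real.sqrt_sq hkr.le]
  have hlogη : Real.log N / η = Real.sqrt (k * Real.log N) := by
    rw [← hkη, div_eq_iff hη0.ne', mul_assoc, ← sq, hsq]
    field_simp
  have h1 : (Real.log (d 0 ^ 2) - Real.log (d (j : ℕ) ^ 2)) / (2 * η) ≤ Real.log N / (2 * η) :=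
    div_le_div_of_nonneg_right (by linarith) (by positivity)
  have h2 : ((j : ℕ) : ℝ) * (η / 2) ≤ k * (η / 2) := by
    refine mul_le_mul_of_nonneg_right ?_ (by positivity)
    exact_mod_cast j.2.le
  have h3 : Real.log N / (2 * η) = Real.log N / η / 2 := by
    field_simp
  rw [h3, hlogη] at h1
  have h4 : (k : ℝ) * (η / 2) = k * η / 2 := by ring
  rw [h4, hkη] at h2
  linarith

/-- Bound for a dual vector. -/
theorem dual_bound [FiniteDimensional ℝ E] (hdim : Module.finrank ℝ E = k)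
    (a : Fin k → E) (N : ℝ) (hN : 1 < N)
    (hpiv : ∀ i j : Fin k, i ≤ j →
      Metric.infDist (a j) (SS a i : Set E) ≤ Metric.infDist (a i) (SS a i : Set E))
    (hlow : ∀ i, 1 ≤ N * Metric.infDist (a i) (SS a i : Set E) ^ 2) (hup : ∀ i, ‖a i‖ ≤ 1)
    (b : E) (hb : ∀ j, |⟪a j, b⟫| ≤ 1) :
    ‖b‖ ^ 2 ≤ k * N * Real.exp (Real.sqrt (k * Real.log N)) ^ 2 := by
  have hN0 : 0 < N := by linarith
  have hlow2 : ∀ i, 1 ≤ N * ‖gramSchmidt ℝ a i‖ ^ 2 := by
    intro i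
    refine (hlow i).trans (mul_le_mul_of_nonneg_left ?_ hN0.le)
    exact pow_le_pow_left₀ Metric.infDist_nonneg (infDist_self_le a i) 2
  have hq : ∀ i, gramSchmidt ℝ a i ≠ 0 := by
    intro i h
    have := hlow2 i
    rw [h] at this
    simp at this
    linarith
  obtain ⟨B, hB⟩ := Orthonormal.exists_orthonormalBasis_extension_of_card_eq (𝕜 := ℝ) (E := E)
    (ι := Fin k) (by rw [hdim, Fintype.card_fin]) (v := ee a) (s := Set.univ)
    (by
      have := ee_orthonormal a hq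
      exact this.comp (Subtype.val : ↥(Set.univ : Set (Fin k)) → Fin k) Subtype.val_injective)
  rw [← B.sum_sq_norm_inner_right b]
  have h1 : ∀ i : Fin k, ‖⟪B i, b⟫‖ ^ 2 ≤ N * Real.exp (Real.sqrt (k * Real.log N)) ^ 2 := by
    intro i
    rw [hB i (Set.mem_univ i)]
    have h2 := inner_bound a N hN hpiv hlow hup b hb i
    unfold ee
    rw [inner_smul_left, Real.norm_eq_abs, sq_abs]
    simp only [conj_trivial]
    rw [mul_pow]
    have h3 : ⟪gramSchmidt ℝ a i, b⟫ ^ 2 ≤ Real.exp (Real.sqrt (k * Real.log N)) ^ 2 := by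
      rw [← sq_abs]
      exact pow_le_pow_left₀ (abs_nonneg _) h2 2
    have hn : 0 < ‖gramSchmidt ℝ a i‖ := norm_pos_iff.2 (hq i)
    have h4 : (‖gramSchmidt ℝ a i‖⁻¹) ^ 2 ≤ N := by
      rw [inv_pow, inv_le_iff_one_le_mul₀ (by positivity)]
      exact hlow2 i
    exact mul_le_mul h4 h3 (by positivity) hN0.le
  refine (Finset.sum_le_sum fun i _ => h1 i).trans (le_of_eq ?_)
  rw [Finset.sum_const, Finset.card_univ, Fintype.card_fin, nsmul_eq_mul]
  ring

end Pool.Agent.Y830.QR
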