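import Mathlib
import Pool.Agent.Y830.QR.Geo
import Pool.Agent.Results.MP_79babf_an.QRCPSuperpolynomial

/-! Upper bound for column-pivoted QR on matrices with orthonormal rows. -/

set_option autoImplicit false

open Finset InnerProductSpace

open scoped RealInnerProductSpace Matrix Matrix.Norms.L2Operator

namespace Pool.Agent.Y830.QR

open Pool.Agent.Results.MP_79babf_an.QRCPSuperpolynomial

variable {n k : ℕ}

/-- The columns of `Qᵀ` form a tight frame. -/
lemma frame (Q : Matrix (Fin n) (Fin k) ℝ) (hQ : Qᵀ * Q = 1) (x : EuclideanSpace ℝ (Fin k)) :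
    ∑ r, ⟪col Q r, x⟫ ^ 2 = ‖x‖ ^ 2 := by
  have h : (Q *ᵥ x.ofLp) ⬝ᵥ (Q *ᵥ x.ofLp) = x.ofLp ⬝ᵥ x.ofLp := by
    rw [Matrix.dotProduct_mulVec, Matrix.vecMul_mulVec, hQ, Matrix.vecMul_one]
  have h1 : ∀ r, ⟪col Q r, x⟫ = (Q *ᵥ x.ofLp) r := by
    intro r
    rw [EuclideanSpace.inner_eq_star_dotProduct, _root_.dotProduct_comm]
    simp [col, Matrix.mulVec]
  have h2 : ‖x‖ ^ 2 = x.ofLp ⬝ᵥ x.ofLp := by
    rw [EuclideanSpace.norm_sq_eq]
    simp [dotProduct, sq]
  rw [h2, ← h]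
  simp only [h1, dotProduct, sq]

lemma norm_col_le (Q : Matrix (Fin n) (Fin k) ℝ) (hQ : Qᵀ * Q = 1) (r : Fin n) :
    ‖col Q r‖ ≤ 1 := by
  have h := frame Q hQ (col Q r)
  have h2 : ⟪col Q r, col Q r⟫ ^ 2 ≤ ‖col Q r‖ ^ 2 := by
    rw [← h]
    exact Finset.single_le_sum (f := fun s => ⟪col Q s, col Q r⟫ ^ 2) (fun s _ => sq_nonneg _)
      (Finset.mem_univ r)
  rw [real_inner_self_eq_norm_sq] at h2
  by_contra hlt
  rw [not_le] at hlt
  have h3 : (1:ℝ) < ‖col Q r‖ ^ 2 := by nlinarith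
  nlinarith

/-- A subspace spanned by fewer than `k` vectors has a nonzero orthogonal vector. -/
lemma exists_orth (a : Fin k → EuclideanSpace ℝ (Fin k)) (i : Fin k) :
    ∃ v : EuclideanSpace ℝ (Fin k), v ≠ 0 ∧ ∀ s ∈ SS a i, ⟪s, v⟫ = 0 := by
  classical
  have h1 : Module.finrank ℝ (SS a i) < k := by
    have h2 : SS a i = Submodule.span ℝ ((Finset.image a (Finset.Iio i) : Finset _) : Set _) := by
      unfold SS
      congr 1
      ext x
      simp
    rw [h2]
    have h3 := finrank_span_finset_le_card (R := ℝ) (Finset.image a (Finset.Iio i))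
    unfold Set.finrank at h3
    refine lt_of_le_of_lt h3 (lt_of_le_of_lt Finset.card_image_le ?_)
    rw [Fin.card_Iio]
    exact i.2
  have h4 : SS a i ≠ ⊤ := by
    intro h
    rw [h, finrank_top, finrank_euclideanSpace, Fintype.card_fin] at h1
    exact lt_irrefl _ h1
  have h5 : (SS a i)ᗮ ≠ ⊥ := by
    intro h
    exact h4 (Submodule.orthogonal_eq_bot_iff.1 h)
  obtain ⟨v, hv, hv0⟩ := Submodule.exists_mem_ne_zero_of_ne_bot h5
  exact ⟨v, hv0, fun s hs => Submodule.inner_right_of_mem_orthogonal hs hv⟩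

variable (Q : Matrix (Fin n) (Fin k) ℝ) (σ : Fin k → Fin n)

lemma residual_low (hQ : Qᵀ * Q = 1) (hσ : IsQRCP Q σ) (i : Fin k) :
    1 ≤ (n : ℝ) * residual Q σ i (σ i) ^ 2 := by
  obtain ⟨v, hv0, hv⟩ := exists_orth (fun j => col Q (σ j)) i
  have hvn : 0 < ‖v‖ := norm_pos_iff.2 hv0
  have h1 : ∀ r, ⟪col Q r, v⟫ ^ 2 ≤ ‖v‖ ^ 2 * residual Q σ i (σ i) ^ 2 := by
    intro r
    have h2 : |⟪col Q r, v⟫| ≤ ‖v‖ * residual Q σ i r := by
      have h3 : |⟪col Q r, v⟫| / ‖v‖ ≤ residual Q σ i r := by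
        unfold Results.MP_79babf_an.QRCPSuperpolynomial.residual
        rw [Metric.le_infDist ⟨0, Submodule.zero_mem _⟩]
        intro y hy
        rw [div_le_iff₀ hvn, dist_eq_norm]
        have h4 : ⟪col Q r, v⟫ = ⟪col Q r - y, v⟫ := by
          rw [inner_sub_left, hv y hy, sub_zero]
        rw [h4]
        exact abs_real_inner_le_norm _ _
      rw [div_le_iff₀ hvn] at h3
      linarith
    have h5 : |⟪col Q r, v⟫| ≤ ‖v‖ * residual Q σ i (σ i) :=
      h2.trans (mul_le_mul_of_nonneg_left (hσ i r) hvn.le)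
    rw [← mul_pow, ← sq_abs]
    exact pow_le_pow_left₀ (abs_nonneg _) h5 2
  have h6 := frame Q hQ v
  have h7 : ‖v‖ ^ 2 ≤ ∑ _r : Fin n, ‖v‖ ^ 2 * residual Q σ i (σ i) ^ 2 :=
    h6.symm.le.trans (Finset.sum_le_sum fun r _ => h1 r)
  rw [Finset.sum_const, Finset.card_univ, Fintype.card_fin, nsmul_eq_mul] at h7
  have h8 : 0 < ‖v‖ ^ 2 := by positivity
  nlinarith

lemma norm_le_frob (B : Matrix (Fin k) (Fin k) ℝ) (C : ℝ) (hC : 0 ≤ C)
    (h : ∀ l : Fin k, ‖(WithLp.toLp 2 (fun c => B c l) : EuclideanSpace ℝ (Fin k))‖ ^ 2 ≤ C ^ 2) :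
    ‖B‖ ≤ Real.sqrt k * C := by
  rw [Matrix.l2_opNorm_def]
  refine ContinuousLinearMap.opNorm_le_bound _ (by positivity) fun x => ?_
  have e : (Matrix.toEuclideanLin ≪≫ₗ LinearMap.toContinuousLinearMap) B x =
      WithLp.toLp 2 (B *ᵥ x.ofLp) := rfl
  rw [e]
  refine le_of_sq_le_sq ?_ (by positivity)
  rw [mul_pow, mul_pow, Real.sq_sqrt (by positivity), EuclideanSpace.norm_sq_eq,
    EuclideanSpace.norm_sq_eq]
  have h1 : ∀ c : Fin k, ‖(B *ᵥ x.ofLp) c‖ ^ 2 ≤ (∑ l, B c l ^ 2) * ∑ l, ‖x.ofLp l‖ ^ 2 := by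
    intro c
    rw [Real.norm_eq_abs, sq_abs]
    have := Finset.sum_mul_sq_le_sq_mul_sq Finset.univ (fun l => B c l) (fun l => x.ofLp l)
    refine this.trans (le_of_eq ?_)
    congr 1
    refine Finset.sum_congr rfl fun l _ => ?_
    rw [Real.norm_eq_abs, sq_abs]
  refine (Finset.sum_le_sum fun c _ => h1 c).trans ?_
  rw [← Finset.sum_mul]
  refine mul_le_mul_of_nonneg_right ?_ (by positivity)
  rw [Finset.sum_comm]
  have h2 : ∀ l : Fin k, ∑ c, B c l ^ 2 ≤ C ^ 2 := by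
    intro l
    have := h l
    rw [EuclideanSpace.norm_sq_eq] at this
    refine le_trans (le_of_eq ?_) this
    refine Finset.sum_congr rfl fun c _ => ?_
    simp
  refine (Finset.sum_le_sum fun l _ => h2 l).trans (le_of_eq ?_)
  rw [Finset.sum_const, Finset.card_univ, Fintype.card_fin, nsmul_eq_mul]

/-- The upper bound. -/
theorem upper (hn : 2 ≤ n) (hQ : Qᵀ * Q = 1) (hσ : IsQRCP Q σ) :
    ‖(Q.submatrix σ id)⁻¹‖ ≤ k * Real.sqrt n * Real.exp (Real.sqrt (k * Real.log n)) := by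
  set A := Q.submatrix σ id with hA
  by_cases hdet : IsUnit A.det
  swap
  · rw [Matrix.nonsing_inv_apply_not_isUnit A hdet, norm_zero]
    positivity
  have hinv := Matrix.mul_nonsing_inv A hdet
  have hnr : (1:ℝ) < n := by exact_mod_cast (by omega : 1 < n)
  have hpiv : ∀ i j : Fin k, i ≤ j →
      Metric.infDist (col Q (σ j)) (SS (fun j => col Q (σ j)) i : Set (EuclideanSpace ℝ (Fin k))) ≤
      Metric.infDist (col Q (σ i)) (SS (fun j => col Q (σ j)) i : Set (EuclideanSpace ℝ (Fin k))) :=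
    fun i j _ => hσ i (σ j)
  have hdual : ∀ l : Fin k,
      ‖(WithLp.toLp 2 (fun c => A⁻¹ c l) : EuclideanSpace ℝ (Fin k))‖ ^ 2 ≤
      (Real.sqrt (k * n) * Real.exp (Real.sqrt (k * Real.log n))) ^ 2 := by
    intro l
    have h := dual_bound (k := k) (E := EuclideanSpace ℝ (Fin k))
      (by rw [finrank_euclideanSpace, Fintype.card_fin]) (fun j => col Q (σ j)) n hnr hpiv
      (fun i => residual_low Q σ hQ hσ i) (fun i => norm_col_le Q hQ _)
      (WithLp.toLp 2 (fun c => A⁻¹ c l)) (by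
        intro j
        have h1 : ⟪col Q (σ j), (WithLp.toLp 2 (fun c => A⁻¹ c l) : EuclideanSpace ℝ (Fin k))⟫ =
            (A * A⁻¹) j l := by
          rw [EuclideanSpace.inner_eq_star_dotProduct, _root_.dotProduct_comm, Matrix.mul_apply]
          simp [col, dotProduct, hA]
        rw [h1, hinv, Matrix.one_apply]
        split_ifs <;> simp)
    rw [mul_pow, Real.sq_sqrt (by positivity)]
    exact h
  have h := norm_le_frob A⁻¹ _ (by positivity) hdual
  refine h.trans (le_of_eq ?_)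
  rw [Real.sqrt_mul (by positivity), ← mul_assoc, ← mul_assoc, Real.mul_self_sqrt (by positivity)]

/-- The selected block is invertible. -/
theorem isUnit_block (hn : 2 ≤ n) (hQ : Qᵀ * Q = 1) (hσ : IsQRCP Q σ) :
    IsUnit (Q.submatrix σ id) := by
  have hnr : (1:ℝ) < n := by exact_mod_cast (by omega : 1 < n)
  have hpiv : ∀ i j : Fin k, i ≤ j →
      Metric.infDist (col Q (σ j)) (SS (fun j => col Q (σ j)) i : Set (EuclideanSpace ℝ (Fin k))) ≤
      Metric.infDist (col Q (σ i)) (SS (fun j => col Q (σ j)) i : Set (EuclideanSpace ℝ (Fin k))) :=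
    fun i j _ => hσ i (σ j)
  rw [← Matrix.mulVec_injective_iff_isUnit]
  have key : ∀ v : Fin k → ℝ, (Q.submatrix σ id) *ᵥ v = 0 → v = 0 := by
    intro v hv
    by_contra hv0
    set w : EuclideanSpace ℝ (Fin k) := WithLp.toLp 2 v with hw
    have hw0 : w ≠ 0 := by
      intro h
      apply hv0
      funext i
      have := congrFun (congrArg WithLp.ofLp h) i
      simpa [hw] using this
    have hwn : 0 < ‖w‖ := norm_pos_iff.2 hw0
    have hinner : ∀ j, ⟪col Q (σ j), w⟫ = 0 := by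
      intro j
      have h1 : ⟪col Q (σ j), w⟫ = ((Q.submatrix σ id) *ᵥ v) j := by
        rw [EuclideanSpace.inner_eq_star_dotProduct, _root_.dotProduct_comm]
        simp [col, Matrix.mulVec, dotProduct, hw]
      rw [h1, hv]
      rfl
    set C : ℝ := k * n * Real.exp (Real.sqrt (k * Real.log n)) ^ 2 with hC
    have hC0 : 0 ≤ C := by positivity
    have hall : ∀ T : ℝ, ‖T • w‖ ^ 2 ≤ C := by
      intro T
      refine dual_bound (k := k) (E := EuclideanSpace ℝ (Fin k))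
        (by rw [finrank_euclideanSpace, Fintype.card_fin]) (fun j => col Q (σ j)) n hnr hpiv
        (fun i => residual_low Q σ hQ hσ i) (fun i => norm_col_le Q hQ _) (T • w) (fun j => ?_)
      rw [inner_smul_right, hinner j, mul_zero, abs_zero]
      exact zero_le_one
    have h1 := hall ((C + 1) / ‖w‖)
    rw [norm_smul, norm_div, norm_norm, div_mul_cancel₀ _ hwn.ne', Real.norm_eq_abs, sq_abs] at h1
    nlinarith
  intro x y hxy
  have := key (x - y) (by
    rw [Matrix.mulVec_sub]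
    exact sub_eq_zero.2 hxy)
  exact sub_eq_zero.1 this

end Pool.Agent.Y830.QR
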