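import Mathlib
import Pool.Agent.Y830.QR.Up

/-! Lower bound for column-pivoted QR: padded Kahan-type examples with sharp parameters. -/

set_option autoImplicit false

open Finset InnerProductSpace

open scoped RealInnerProductSpace Matrix Matrix.Norms.L2Operator

namespace Pool.Agent.Y830.QR

open Pool.Agent.Results.MP_79babf_an.QRCPSuperpolynomial

/-- Adding zero rows. -/
lemma pad {n₀ n k : ℕ} (hn : n₀ ≤ n) (Q₀ : Matrix (Fin n₀) (Fin k) ℝ)
    (hQ : Q₀ᵀ * Q₀ = 1) (ι : Fin k → Fin n₀) (hι : IsQRCP Q₀ ι)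
    (huniq : ∀ σ, IsQRCP Q₀ σ → σ = ι) :
    ∃ Q : Matrix (Fin n) (Fin k) ℝ, Qᵀ * Q = 1 ∧ (∃ σ, IsQRCP Q σ) ∧
      ∀ σ, IsQRCP Q σ → Q.submatrix σ id = Q₀.submatrix ι id := by
  set Q : Matrix (Fin n) (Fin k) ℝ := fun r i => if h : (r : ℕ) < n₀ then Q₀ ⟨r, h⟩ i else 0 with hQd
  have hrow : ∀ (r : Fin n) (h : (r : ℕ) < n₀), Q r = Q₀ ⟨r, h⟩ := by
    intro r h; funext i; simp [hQd, h]
  have hrow0 : ∀ (r : Fin n), ¬ (r : ℕ) < n₀ → Q r = 0 := by
    intro r h; funext i; simp [hQd, h]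
  have hcol : ∀ (r : Fin n) (h : (r : ℕ) < n₀), Results.MP_79babf_an.QRCPSuperpolynomial.col Q r =
      Results.MP_79babf_an.QRCPSuperpolynomial.col Q₀ ⟨r, h⟩ := by
    intro r h
    unfold Results.MP_79babf_an.QRCPSuperpolynomial.col
    rw [hrow r h]
  have hcol0 : ∀ (r : Fin n), ¬ (r : ℕ) < n₀ →
      Results.MP_79babf_an.QRCPSuperpolynomial.col Q r = 0 := by
    intro r h
    unfold Results.MP_79babf_an.QRCPSuperpolynomial.col
    rw [hrow0 r h]
    rfl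
  have hres : ∀ (τ : Fin k → Fin n) (τ₀ : Fin k → Fin n₀), (∀ j, (τ j : ℕ) = τ₀ j) →
      ∀ (j : Fin k) (r : Fin n) (h : (r : ℕ) < n₀),
      Results.MP_79babf_an.QRCPSuperpolynomial.residual Q τ j r =
      Results.MP_79babf_an.QRCPSuperpolynomial.residual Q₀ τ₀ j ⟨r, h⟩ := by
    intro τ τ₀ hτ j r h
    unfold Results.MP_79babf_an.QRCPSuperpolynomial.residual
    rw [hcol r h]
    have : (fun i : Fin k => Results.MP_79babf_an.QRCPSuperpolynomial.col Q (τ i)) =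
        fun i : Fin k => Results.MP_79babf_an.QRCPSuperpolynomial.col Q₀ (τ₀ i) := by
      funext i
      have h1 : ((τ i : Fin n) : ℕ) < n₀ := by rw [hτ i]; exact (τ₀ i).2
      rw [hcol _ h1]
      congr 1
      exact Fin.ext (hτ i)
    rw [this]
  have hres0 : ∀ (τ : Fin k → Fin n) (j : Fin k) (r : Fin n), ¬ (r : ℕ) < n₀ →
      Results.MP_79babf_an.QRCPSuperpolynomial.residual Q τ j r = 0 := by
    intro τ j r h
    unfold Results.MP_79babf_an.QRCPSuperpolynomial.residual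
    rw [hcol0 r h]
    exact Metric.infDist_zero_of_mem (Submodule.zero_mem _)
  have hQQ : Qᵀ * Q = 1 := by
    rw [← hQ]
    ext i i'
    rw [Matrix.mul_apply, Matrix.mul_apply]
    have h1 : ∑ r : Fin n, Qᵀ i r * Q r i' =
        ∑ r ∈ Finset.univ.filter (fun r : Fin n => (r : ℕ) < n₀), Q r i * Q r i' := by
      rw [Finset.sum_filter]
      refine Finset.sum_congr rfl fun r _ => ?_
      split_ifs with h
      · rfl
      · show Q r i * Q r i' = 0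
        rw [hrow0 r h]; simp
    rw [h1]
    symm
    refine Finset.sum_bij (fun (r : Fin n₀) _ => Fin.castLE hn r) ?_ ?_ ?_ ?_
    · intro r _; simp
    · intro r _ r' _ h
      exact Fin.castLE_injective hn h
    · intro r hr
      exact ⟨⟨r, (Finset.mem_filter.1 hr).2⟩, Finset.mem_univ _, Fin.ext rfl⟩
    · intro r _
      show Q₀ r i * Q₀ r i' = Q (Fin.castLE hn r) i * Q (Fin.castLE hn r) i'
      rw [hrow (Fin.castLE hn r) r.2]
      rfl
  refine ⟨Q, hQQ, ⟨fun j => Fin.castLE hn (ι j), ?_⟩, ?_⟩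
  · intro j r
    have hb := hres (fun j => Fin.castLE hn (ι j)) ι (fun j => rfl) j (Fin.castLE hn (ι j)) (ι j).2
    rw [hb]
    by_cases h : (r : ℕ) < n₀
    · rw [hres (fun j => Fin.castLE hn (ι j)) ι (fun j => rfl) j r h]
      exact hι j ⟨r, h⟩
    · rw [hres0 _ j r h]
      exact Metric.infDist_nonneg
  · intro σ hσ
    have hlt : ∀ j, (σ j : ℕ) < n₀ := by
      intro j
      by_contra h
      have h1 := residual_low Q σ hQQ hσ j
      rw [hres0 σ j (σ j) h] at h1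
      norm_num at h1
    have hσ0 : IsQRCP Q₀ (fun j => ⟨σ j, hlt j⟩) := by
      intro j r
      have h1 := hσ j (Fin.castLE hn r)
      rw [hres σ (fun j => ⟨σ j, hlt j⟩) (fun j => rfl) j (Fin.castLE hn r) r.2,
        hres σ (fun j => ⟨σ j, hlt j⟩) (fun j => rfl) j (σ j) (hlt j)] at h1
      exact h1
    have h2 := huniq _ hσ0
    ext j i
    show Q (σ j) i = Q₀ (ι j) i
    rw [hrow (σ j) (hlt j), ← h2]

/-- Padded examples. -/
lemma examples {k M n : ℕ} (p : Par) (hk : 2 ≤ k) (hM : 0 < M) (hn : k + k * M ≤ n)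
    (hsmall : (k : ℝ) ^ 2 < M * (p.s ^ 2) ^ k) :
    ∃ Q : Matrix (Fin n) (Fin k) ℝ, Qᵀ * Q = 1 ∧ (∃ σ, IsQRCP Q σ) ∧
      ∀ σ, IsQRCP Q σ → p.a * (1 + p.a) ^ (k - 2) ≤ ‖(Q.submatrix σ id)⁻¹‖ := by
  have hkr : (0 : ℝ) < k := by exact_mod_cast (by omega : 0 < k)
  have hMr : (0 : ℝ) < M := by exact_mod_cast hM
  set c : ℝ := Real.sqrt (1 / k) with hc
  have hc2 : c ^ 2 = 1 / k := Real.sq_sqrt (by positivity)
  have hc0 : 0 < c := Real.sqrt_pos.2 (by positivity)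
  have hc1 : c ≤ 1 := by
    refine Real.sqrt_le_iff.2 ⟨by norm_num, ?_⟩
    rw [one_pow, div_le_one hkr]
    exact_mod_cast (by omega : 1 ≤ k)
  have hs0 : 0 < p.s ^ 2 := pow_pos p.hs0 2
  have hs1 : p.s ^ 2 ≤ 1 := pow_le_one₀ p.hs0.le p.hs1.le
  obtain ⟨Q₀, ι, h1, h2, h3, h4⟩ := construct (k := k) (M := M) p c hc0
    (by rw [hc2]; field_simp; rfl) hM (by
      intro j
      rw [hc2]
      have h5 : (p.s ^ 2) ^ k ≤ (p.s ^ 2) ^ (j : ℕ) := pow_le_pow_of_le_one hs0.le hs1 j.2.le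
      rw [div_lt_iff₀ hMr]
      have h6 : (k : ℝ) ^ 2 < M * (p.s ^ 2) ^ (j : ℕ) :=
        hsmall.trans_le (mul_le_mul_of_nonneg_left h5 hMr.le)
      have h7 : 1 / (k : ℝ) * (p.s ^ 2) ^ (j : ℕ) * M = (M * (p.s ^ 2) ^ (j : ℕ)) / k := by
        field_simp
      rw [h7, lt_div_iff₀ hkr]
      nlinarith)
  obtain ⟨Q, g1, g2, g3⟩ := pad hn Q₀ h1 ι h2 h3
  refine ⟨Q, g1, g2, fun σ hσ => ?_⟩
  rw [g3 σ hσ]
  exact inv_bound p c hc0 hc1 (k - 2) (by omega) _ h4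

end Pool.Agent.Y830.QR
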