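import Mathlib
import Pool.Agent.Y830.QR.Low

/-! The sharp asymptotics. -/

set_option autoImplicit false

open Finset InnerProductSpace

open scoped RealInnerProductSpace Matrix Matrix.Norms.L2Operator

namespace Pool.Agent.Y830.QR

open Pool.Agent.Results.MP_79babf_an.QRCPSuperpolynomial

lemma aux6 (δ : ℝ) (h0 : 0 < δ) : (1 - 4 * δ) * ((1 + δ) * (1 + δ)) ≤ (1 - δ) * (1 - δ) := by
  have : (1 - δ) * (1 - δ) - (1 - 4 * δ) * ((1 + δ) * (1 + δ)) = 8 * δ ^ 2 + 4 * δ ^ 3 := by ring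
  have h : 0 ≤ 8 * δ ^ 2 + 4 * δ ^ 3 := by positivity
  linarith

lemma aux7 (a k P : ℝ) (h1 : 1 ≤ a * k) (h2 : 0 ≤ P) : 4 * P ≤ a * P * (4 * k) := by
  nlinarith [mul_le_mul_of_nonneg_right h1 h2]

lemma aux8 (δ X : ℝ) (h1 : 0 < 1 - δ) (h0 : 0 < δ) (hX : 0 < X) :
    (1 - δ) ^ 2 * X ≤ (1 - δ) * X := by
  have : (1 - δ) ^ 2 ≤ 1 - δ := by nlinarith
  exact mul_le_mul_of_nonneg_right this hX.le

lemma aux9 (L k δ : ℝ) (hL : 64 ≤ L) (hk : 64 ≤ k) (hδ : δ ≤ 1 / 8) :
    4 ^ 2 * k ≤ (1 - δ) * L * k ^ 2 := by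
  have h1 : 16 ≤ (1 - δ) * L := by nlinarith
  have h2 : k ≤ k ^ 2 := by nlinarith
  have h3 : 16 * k ≤ (1 - δ) * L * k := mul_le_mul_of_nonneg_right h1 (by linarith)
  have h4 : (1 - δ) * L * k ≤ (1 - δ) * L * k ^ 2 := mul_le_mul_of_nonneg_left h2 (by linarith)
  linarith

lemma aux10 (L k δ : ℝ) (hL : 0 < L) (hk : 0 < k) (h : L ≤ k * δ ^ 2) :
    L ^ 2 ≤ δ ^ 2 * (k * L) := by
  nlinarith [mul_le_mul_of_nonneg_right h hL.le]

lemma aux11 (L k B ε : ℝ) (hL : 0 < L) (hk : 0 < k) (hB : 64 ≤ B * ε ^ 2) (h4 : L * B ≤ k) :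
    L ^ 2 ≤ ε ^ 2 * (k * L) := by
  have h5 : L ≤ ε ^ 2 * k := by nlinarith [mul_le_mul_of_nonneg_left h4 (sq_nonneg ε)]
  nlinarith [mul_le_mul_of_nonneg_right h5 hL.le]

lemma rows_aux (k n : ℕ) (hk : 64 ≤ k) (hnk4' : k ^ 4 ≤ n) : 0 < n / k - 1 ∧
    k + k * (n / k - 1) ≤ n ∧ (n : ℝ) / (2 * k) ≤ ((n / k - 1 : ℕ) : ℝ) := by
  have hdivk : 4 ≤ n / k := by
    rw [Nat.le_div_iff_mul_le (by omega)]
    refine le_trans ?_ hnk4'
    calc 4 * k ≤ k * k := Nat.mul_le_mul_right _ (by omega)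
      _ = k ^ 2 := by ring
      _ ≤ k ^ 4 := Nat.pow_le_pow_right (by omega) (by norm_num)
  have hkpos : (0 : ℝ) < k := by exact_mod_cast (by omega : 0 < k)
  obtain ⟨M, hM⟩ : ∃ M, n / k = M + 1 := ⟨n / k - 1, by omega⟩
  rw [hM, Nat.add_sub_cancel]
  refine ⟨by omega, ?_, ?_⟩
  · have h1 : k * (n / k) ≤ n := Nat.mul_div_le n k
    rw [hM] at h1
    linarith
  · have h1 : n < k * (n / k + 1) := Nat.lt_mul_div_succ n (by omega)
    rw [hM] at h1
    have h3 : (n : ℝ) < k * (M + 1 + 1) := by exact_mod_cast h1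
    have h5 : (3 : ℝ) ≤ M := by exact_mod_cast (by omega : 3 ≤ M)
    have h6 : (k : ℝ) * 2 ≤ k * M := mul_le_mul_of_nonneg_left (by linarith) hkpos.le
    rw [div_le_iff₀ (by positivity)]
    linarith

/-- The lower half, in explicit form: `L = log n`, `B` a large parameter. -/
lemma lower_core (ε B : ℝ) (hε0 : 0 < ε) (hε1 : ε < 1) (hB : 64 / ε ^ 2 ≤ B) (hB2 : 64 ≤ B)
    (k n : ℕ) (hk : B ≤ k) (hkn : B * Real.log k ≤ Real.log n) (hnk : Real.log n ≤ k / B) :
    ∃ Q : Matrix (Fin n) (Fin k) ℝ, Qᵀ * Q = 1 ∧ (∃ σ, IsQRCP Q σ) ∧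
      ∀ σ, IsQRCP Q σ →
        Real.exp ((1 - ε) * Real.sqrt (k * Real.log n)) ≤ ‖(Q.submatrix σ id)⁻¹‖ := by
  have hBpos : 0 < B := by linarith
  have hk64 : (64 : ℝ) ≤ k := hB2.trans hk
  have hkpos : (0 : ℝ) < k := by linarith
  have hkN : 64 ≤ k := by exact_mod_cast hk64
  set L := Real.log n with hL
  have hlogk1 : 1 ≤ Real.log k := by
    rw [Real.le_log_iff_exp_le hkpos]
    have := Real.exp_one_lt_d9
    linarith
  have hL64 : 64 ≤ L := by
    have h1 : 64 * 1 ≤ B * Real.log k := mul_le_mul hB2 hlogk1 zero_le_one (by linarith)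
    linarith
  have hLpos : 0 < L := by linarith
  have hnpos : 0 < n := by
    rcases Nat.eq_zero_or_pos n with h | h
    · rw [h] at hL; simp at hL; linarith
    · exact h
  have hnr : (0 : ℝ) < n := by exact_mod_cast hnpos
  -- the small parameter
  set δ : ℝ := ε / 8 with hδ
  have hδ0 : 0 < δ := by positivity
  have hδ1 : δ ≤ 1 / 8 := by rw [hδ]; linarith
  have hBε : 64 ≤ B * ε ^ 2 := by
    rw [div_le_iff₀ (by positivity)] at hB; exact hB
  have hBδ : 4 ≤ B * δ := by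
    have h1 : B * ε ^ 2 ≤ B * ε := by
      refine mul_le_mul_of_nonneg_left ?_ hBpos.le
      exact pow_le_of_le_one hε0.le hε1.le two_ne_zero
    have h2 : B * δ = B * ε / 8 := by rw [hδ]; ring
    linarith
  -- `t = √(k L)`
  set t : ℝ := Real.sqrt (k * L) with ht
  have ht2 : t ^ 2 = k * L := Real.sq_sqrt (by positivity)
  have ht0 : 0 < t := Real.sqrt_pos.2 (by positivity)
  -- `y = (1 - δ) L / k`, `r = √y`
  set y : ℝ := (1 - δ) * L / k with hy
  have hy0 : 0 < y := by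
    have : 0 < 1 - δ := by linarith
    positivity
  have hLk : L / k ≤ 1 / B := by
    rw [div_le_div_iff₀ hkpos hBpos, one_mul]
    rw [le_div_iff₀ hBpos] at hnk
    exact hnk
  have hyB : y ≤ 1 / B := by
    refine le_trans ?_ hLk
    rw [hy]
    exact div_le_div_of_nonneg_right (mul_le_of_le_one_left hLpos.le (by linarith)) hkpos.le
  set r : ℝ := Real.sqrt y with hr
  have hr2 : r ^ 2 = y := Real.sq_sqrt hy0.le
  have hr0 : 0 < r := Real.sqrt_pos.2 hy0
  have hBinv : 1 / B ≤ δ ^ 2 := by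
    rw [div_le_iff₀ hBpos]
    have h1 : δ ^ 2 * B = B * ε ^ 2 / 64 := by rw [hδ]; ring
    rw [h1]
    linarith
  have hrδ : r ≤ δ := by
    refine le_of_sq_le_sq ?_ hδ0.le
    rw [hr2]
    exact hyB.trans hBinv
  have hyδ : y ≤ δ := by
    refine (hyB.trans hBinv).trans ?_
    exact pow_le_of_le_one hδ0.le (by linarith) two_ne_zero
  set a : ℝ := (1 - δ) * r / (1 + y) with ha
  have h1δ : 0 < 1 - δ := by linarith
  have ha0 : 0 < a := by positivity
  have har : a ≤ r := by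
    rw [ha, div_le_iff₀ (by positivity)]
    linarith [mul_pos hr0 hy0, mul_pos hδ0 hr0]
  set s : ℝ := Real.sqrt (1 / (1 + y)) with hs
  have hs2 : s ^ 2 = 1 / (1 + y) := Real.sq_sqrt (by positivity)
  have hs0 : 0 < s := Real.sqrt_pos.2 (by positivity)
  have hs1 : s < 1 := by
    rw [hs, Real.sqrt_lt' one_pos, one_pow, div_lt_one (by positivity)]
    linarith
  have has : a ^ 2 < 1 - s ^ 2 := by
    rw [hs2, ha, div_pow, mul_pow, hr2]
    have e1 : 1 - 1 / (1 + y) = y * (1 + y) / (1 + y) ^ 2 := by field_simp; ring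
    rw [e1]
    refine div_lt_div_of_pos_right ?_ (by positivity)
    linarith [mul_pos hy0 hδ0, mul_pos hy0 hy0, mul_pos (mul_pos hy0 hδ0) h1δ]
  let p : Par :=
    { k := k, s := s, a := a, hk := by omega, hs0 := hs0, hs1 := hs1, ha := ha0, has := has }
  -- the number of extra rows
  set M : ℕ := n / k - 1 with hM
  have hkL4 : (k : ℝ) ^ 4 ≤ Real.exp (δ * L) := by
    have e1 : (k : ℝ) ^ 4 = Real.exp (4 * Real.log k) := by
      rw [mul_comm, Real.exp_mul, Real.exp_log hkpos]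
      norm_num
    rw [e1]
    refine Real.exp_le_exp.2 ?_
    have h1 := mul_le_mul_of_nonneg_left hkn hδ0.le
    have h2 := mul_le_mul_of_nonneg_right hBδ (zero_le_one.trans hlogk1)
    linarith
  have hnexp : (n : ℝ) = Real.exp L := by rw [hL, Real.exp_log hnr]
  have hnk4 : (k : ℝ) ^ 4 ≤ n := by
    refine hkL4.trans ?_
    rw [hnexp]
    refine Real.exp_le_exp.2 ?_
    exact mul_le_of_le_one_left hLpos.le (by linarith)
  have hnk4' : k ^ 4 ≤ n := by exact_mod_cast hnk4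
  obtain ⟨hM0, hMn, hMlow⟩ := rows_aux k n hkN hnk4'
  rw [← hM] at hM0 hMn hMlow
  have hsk : Real.exp (-((1 - δ) * L)) ≤ (s ^ 2) ^ k := by
    rw [hs2, one_div, inv_pow, Real.exp_neg]
    refine inv_anti₀ (by positivity) ?_
    have h1 : (1 + y) ^ k ≤ Real.exp y ^ k := by
      refine pow_le_pow_left₀ (by positivity) ?_ k
      have := Real.add_one_le_exp y
      linarith
    refine h1.trans (le_of_eq ?_)
    rw [← Real.exp_nat_mul]
    congr 1
    rw [hy]
    field_simp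
  have hsmall : (k : ℝ) ^ 2 < M * (p.s ^ 2) ^ k := by
    show (k : ℝ) ^ 2 < M * (s ^ 2) ^ k
    have h1 : (n : ℝ) / (2 * k) * Real.exp (-((1 - δ) * L)) ≤ M * (s ^ 2) ^ k :=
      mul_le_mul hMlow hsk (Real.exp_pos _).le (by positivity)
    refine lt_of_lt_of_le ?_ h1
    have h2 : (n : ℝ) / (2 * k) * Real.exp (-((1 - δ) * L)) = Real.exp (δ * L) / (2 * k) := by
      rw [hnexp, div_mul_eq_mul_div, ← Real.exp_add]
      congr 2
      ring
    rw [h2, lt_div_iff₀ (by positivity)]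
    refine lt_of_lt_of_le ?_ hkL4
    have : (k : ℝ) ^ 4 = k ^ 2 * (k * k) := by ring
    rw [this]
    have h3 : 2 * (k : ℝ) < k * k := mul_lt_mul_of_pos_right (by linarith) hkpos
    exact mul_lt_mul_of_pos_left h3 (by positivity)
  obtain ⟨Q, q1, q2, q3⟩ := examples (k := k) (M := M) (n := n) p (by omega) hM0 hMn hsmall
  refine ⟨Q, q1, q2, fun σ hσ => le_trans ?_ (q3 σ hσ)⟩
  show Real.exp ((1 - ε) * t) ≤ a * (1 + a) ^ (k - 2)
  -- estimates
  have ha1 : a ≤ 1 := har.trans (hrδ.trans (by linarith))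
  have hak : 1 / (k : ℝ) ≤ a := by
    have h1 : 4 / (k : ℝ) ≤ r := by
      refine le_of_sq_le_sq ?_ hr0.le
      rw [hr2, hy, div_pow, div_le_div_iff₀ (by positivity) hkpos]
      exact aux9 L k δ hL64 hk64 hδ1
    have h2 : r / 4 ≤ a := by
      rw [ha, div_le_div_iff₀ (by norm_num) (by positivity)]
      have h7 : r * (1 + y) ≤ r * 2 := mul_le_mul_of_nonneg_left (by linarith) hr0.le
      have h8 : δ * r ≤ 1 / 8 * r := mul_le_mul_of_nonneg_right hδ1 hr0.le
      linarith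
    refine le_trans ?_ h2
    have : 1 / (k : ℝ) = 4 / k / 4 := by ring
    rw [this]
    exact div_le_div_of_nonneg_right h1 (by norm_num)
  have hpow : (1 + a) ^ k ≤ 4 * (1 + a) ^ (k - 2) := by
    have h1 : (1 + a) ^ k = (1 + a) ^ 2 * (1 + a) ^ (k - 2) := by
      rw [← pow_add]; congr 1; omega
    rw [h1]
    refine mul_le_mul_of_nonneg_right ?_ (by positivity)
    have h7 : (1 + a) ^ 2 ≤ 2 ^ 2 := pow_le_pow_left₀ (by positivity) (by linarith) 2
    linarith
  have hlog1 : a / (1 + a) ≤ Real.log (1 + a) := by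
    have := Real.one_sub_inv_le_log_of_pos (x := 1 + a) (by positivity)
    have e1 : a / (1 + a) = 1 - (1 + a)⁻¹ := by field_simp; ring
    rw [e1]; exact this
  have hkr : (1 - δ) * t ≤ k * r := by
    refine le_of_sq_le_sq ?_ (by positivity)
    rw [mul_pow, mul_pow, ht2, hr2, hy]
    have e1 : (k : ℝ) ^ 2 * ((1 - δ) * L / k) = (1 - δ) * (k * L) := by field_simp
    rw [e1]
    exact aux8 δ _ h1δ hδ0 (by positivity)
  have hmain : (1 - 4 * δ) * t ≤ k * Real.log (1 + a) := by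
    have h1 : (k : ℝ) * (a / (1 + a)) ≤ k * Real.log (1 + a) :=
      mul_le_mul_of_nonneg_left hlog1 hkpos.le
    refine le_trans ?_ h1
    have h2 : (k : ℝ) * (a / (1 + a)) = (1 - δ) * (k * r) / ((1 + y) * (1 + a)) := by
      rw [ha]
      field_simp
    rw [h2, le_div_iff₀ (by positivity)]
    have h3 : (1 - δ) * ((1 - δ) * t) ≤ (1 - δ) * (k * r) := mul_le_mul_of_nonneg_left hkr h1δ.le
    refine le_trans ?_ h3
    have h4 : (1 + y) * (1 + a) ≤ (1 + δ) * (1 + δ) := by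
      have : a ≤ δ := har.trans hrδ
      exact mul_le_mul (by linarith) (by linarith) (by positivity) (by positivity)
    have h5 : (1 - 4 * δ) * ((1 + y) * (1 + a)) ≤ (1 - 4 * δ) * ((1 + δ) * (1 + δ)) :=
      mul_le_mul_of_nonneg_left h4 (by linarith)
    have h6 := aux6 δ hδ0
    calc (1 - 4 * δ) * t * ((1 + y) * (1 + a)) = (1 - 4 * δ) * ((1 + y) * (1 + a)) * t := by ring
      _ ≤ (1 - δ) * (1 - δ) * t := mul_le_mul_of_nonneg_right (h5.trans h6) ht0.le
      _ = _ := by ring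
  have hlog4k : Real.log (4 * k) ≤ 4 * δ * t := by
    have h1 : Real.log (4 * k) ≤ 2 * Real.log k := by
      rw [← Real.log_rpow hkpos]
      refine Real.log_le_log (by positivity) ?_
      have h7 : 4 * (k : ℝ) ≤ k * k := mul_le_mul_of_nonneg_right (by linarith) hkpos.le
      have h8 : (k : ℝ) ^ (2 : ℝ) = k * k := by
        rw [← sq]; exact_mod_cast Real.rpow_natCast (k : ℝ) 2
      rw [h8]
      exact h7
    have h2 : Real.log k ≤ L / B := by
      rw [le_div_iff₀ hBpos]; linarith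
    have h3 : L ≤ δ * t := by
      refine le_of_sq_le_sq ?_ (by positivity)
      rw [mul_pow, ht2]
      have h4 : L ≤ k * (1 / B) := by
        rw [mul_one_div]; exact hnk
      exact aux10 L k δ hLpos hkpos (h4.trans (mul_le_mul_of_nonneg_left hBinv hkpos.le))
    have h6 : L / B ≤ L := div_le_self hLpos.le (by linarith)
    have : 0 < δ * t := by positivity
    linarith
  have hfin : Real.exp ((1 - ε) * t) ≤ (1 + a) ^ k / (4 * k) := by
    rw [le_div_iff₀ (by positivity)]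
    have h1 : (1 + a) ^ k = Real.exp (k * Real.log (1 + a)) := by
      rw [mul_comm, Real.exp_mul, Real.exp_log (by positivity), Real.rpow_natCast]
    have h2 : (4 * (k : ℝ)) = Real.exp (Real.log (4 * k)) := (Real.exp_log (by positivity)).symm
    rw [h1]
    conv_lhs => rw [h2]
    rw [← Real.exp_add]
    refine Real.exp_le_exp.2 ?_
    have : (1 - ε) * t = (1 - 4 * δ) * t - 4 * δ * t := by rw [hδ]; ring
    rw [this]
    linarith
  refine hfin.trans ?_
  rw [div_le_iff₀ (by positivity)]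
  refine hpow.trans ?_
  have h1 : (1 : ℝ) ≤ a * k := by
    rw [div_le_iff₀ hkpos] at hak; exact hak
  have h2 : 0 ≤ (1 + a) ^ (k - 2) := by positivity
  exact aux7 a k _ h1 h2

/-- The upper half in the asymptotic range. -/
lemma upper_core (ε B : ℝ) (hε0 : 0 < ε) (hε1 : ε < 1) (hB : 64 / ε ^ 2 ≤ B) (hB2 : 64 ≤ B)
    (k n : ℕ) (hk : B ≤ k) (hkn : B * Real.log k ≤ Real.log n) (hnk : Real.log n ≤ k / B)
    (Q : Matrix (Fin n) (Fin k) ℝ) (hQ : Qᵀ * Q = 1) (σ : Fin k → Fin n) (hσ : IsQRCP Q σ) :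
    ‖(Q.submatrix σ id)⁻¹‖ ≤ Real.exp ((1 + ε) * Real.sqrt (k * Real.log n)) := by
  have hBpos : 0 < B := by linarith
  have hk64 : (64 : ℝ) ≤ k := hB2.trans hk
  have hkpos : (0 : ℝ) < k := by linarith
  set L := Real.log n with hL
  have hlogk1 : 1 ≤ Real.log k := by
    rw [Real.le_log_iff_exp_le hkpos]
    have := Real.exp_one_lt_d9
    linarith
  have hL64 : 64 ≤ L := by nlinarith
  have hLpos : 0 < L := by linarith
  have hn2 : 2 ≤ n := by
    by_contra h
    have h2 : n = 0 ∨ n = 1 := by omega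
    rcases h2 with h2 | h2 <;> · rw [h2] at hL; simp at hL; linarith
  have hnr : (0 : ℝ) < n := by exact_mod_cast (by omega : 0 < n)
  have h := upper Q σ hn2 hQ hσ
  refine h.trans ?_
  set t : ℝ := Real.sqrt (k * L) with ht
  have ht2 : t ^ 2 = k * L := Real.sq_sqrt (by positivity)
  have ht0 : 0 < t := Real.sqrt_pos.2 (by positivity)
  have h1 : (k : ℝ) * Real.sqrt n ≤ Real.exp (ε * t) := by
    have e1 : (k : ℝ) * Real.sqrt n = Real.exp (Real.log k + L / 2) := by
      rw [Real.exp_add, Real.exp_log hkpos, Real.sqrt_eq_rpow, hL, Real.rpow_def_of_pos hnr]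
      congr 2
      ring
    rw [e1]
    refine Real.exp_le_exp.2 ?_
    have h2 : Real.log k ≤ L / B := by
      rw [le_div_iff₀ hBpos]; linarith
    have h2' : L / B ≤ L / 2 := div_le_div_of_nonneg_left hLpos.le (by norm_num) (by linarith)
    have hBε : 64 ≤ B * ε ^ 2 := by
      rw [div_le_iff₀ (by positivity)] at hB; exact hB
    have h3 : L ≤ ε * t := by
      refine le_of_sq_le_sq ?_ (by positivity)
      rw [mul_pow, ht2]
      have h4 : L * B ≤ k := by
        rw [le_div_iff₀ hBpos] at hnk; exact hnk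
      exact aux11 L k B ε hLpos hkpos hBε h4
    linarith
  calc (k : ℝ) * Real.sqrt n * Real.exp t ≤ Real.exp (ε * t) * Real.exp t :=
        mul_le_mul_of_nonneg_right h1 (Real.exp_pos _).le
    _ = Real.exp ((1 + ε) * t) := by rw [← Real.exp_add]; congr 1; ring

end Pool.Agent.Y830.QR
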